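import Pool.Agent.W254.HP.Rel
import Pool.Agent.W254.HP.Opt

/-!
# Numbers `(e ^ u * e ^ (β ℓ + γ)) ^ P` with `P` in a finite dimensional space
-/

set_option autoImplicit false

namespace Pool.Agent.Q28.HP

open Module Finset
open Pool.Agent.H301R2.SSE (QB mem_QB Lt Lt_rep Lt_mul Lt_alg Lt_log)
open Pool.Agent.W254.HP (hyperplane hyperplane' opt_indep)

theorem Lt_add {x y : ℂ} (hx : x ∈ Lt) (hy : y ∈ Lt) : x + y ∈ Lt := Lt.add_mem hx hy

/-- a functional with value one at one -/
theorem exists_phi : ∃ φ : ℂ →ₗ[QB] QB, φ 1 = 1 := by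
  obtain ⟨f, hf⟩ := LinearMap.exists_leftInverse_of_injective (Algebra.linearMap QB ℂ)
    (LinearMap.ker_eq_bot.mpr (algebraMap QB ℂ).injective)
  refine ⟨f, ?_⟩
  have := LinearMap.congr_fun hf 1
  simpa using this

theorem core {κ : Type} [Fintype κ] (W V : Submodule QB ℂ) [FiniteDimensional QB W]
    (h1 : (1 : ℂ) ∈ W) (hV : V ≤ W) (ℓ : ℂ) (hℓ : ∀ v ∈ V, v * ℓ ∈ W)
    (u : κ → ℂ) (hu : ∀ k, IsAlgebraic ℚ (Complex.exp (u k))) (hui : LinearIndependent ℚ u)
    (β γ : κ → QB) (P : κ → ℂ) (hPV : ∀ k, P k ∈ V) (hPt : ∀ k, ¬ IsAlgebraic ℚ (P k))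
    (hz : ∀ k, P k * (u k + β k * ℓ + γ k) ∈ Lt) :
    Fintype.card κ + finrank QB (W ⊓ Lt : Submodule QB ℂ) ≤
      finrank QB W * (finrank QB W - 1) + 1 := by
  classical
  obtain ⟨φ, hφ⟩ := exists_phi
  let K₀ : Submodule QB ℂ := W ⊓ LinearMap.ker φ
  let Y : Submodule QB ℂ := (W ⊓ Lt) ⊓ LinearMap.ker φ
  have : FiniteDimensional QB K₀ := Submodule.finiteDimensional_of_le (inf_le_left : K₀ ≤ W)
  have : FiniteDimensional QB (W ⊓ Lt : Submodule QB ℂ) :=
    Submodule.finiteDimensional_of_le (inf_le_left : W ⊓ Lt ≤ W)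
  have : FiniteDimensional QB Y := Submodule.finiteDimensional_of_le
    ((inf_le_left.trans inf_le_left : Y ≤ W))
  -- dimension formulas
  have hdim : ∀ Z : Submodule QB ℂ, (1 : ℂ) ∈ Z → FiniteDimensional QB Z →
      finrank QB Z = finrank QB (Z ⊓ LinearMap.ker φ : Submodule QB ℂ) + 1 := by
    intro Z hZ hfd
    have h := LinearMap.finrank_range_add_finrank_ker (φ.domRestrict Z)
    have hr : LinearMap.range (φ.domRestrict Z) = ⊤ := by
      rw [LinearMap.range_eq_top]
      intro c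
      refine ⟨c • ⟨1, hZ⟩, ?_⟩
      rw [map_smul, LinearMap.domRestrict_apply, hφ, smul_eq_mul, mul_one]
    rw [hr, finrank_top, finrank_self] at h
    have hk : finrank QB (LinearMap.ker (φ.domRestrict Z)) =
        finrank QB (Z ⊓ LinearMap.ker φ : Submodule QB ℂ) := by
      have h3 : Submodule.map Z.subtype (LinearMap.ker (φ.domRestrict Z)) =
          Z ⊓ LinearMap.ker φ := by
        ext w
        simp only [Submodule.mem_map, LinearMap.mem_ker, LinearMap.domRestrict_apply,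
          Submodule.subtype_apply, Submodule.mem_inf]
        constructor
        · rintro ⟨w, h2, rfl⟩
          exact ⟨w.2, h2⟩
        · rintro ⟨h2, h4⟩
          exact ⟨⟨w, h2⟩, h4, rfl⟩
      rw [← h3]
      exact (LinearEquiv.finrank_eq (Submodule.equivMapOfInjective _ Z.injective_subtype _))
    omega
  have hdW : finrank QB W = finrank QB K₀ + 1 := hdim W h1 inferInstance
  have hdY : finrank QB (W ⊓ Lt : Submodule QB ℂ) = finrank QB Y + 1 :=
    hdim (W ⊓ Lt) ⟨h1, Lt_alg isAlgebraic_one⟩ inferInstance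
  let b := Module.finBasis QB K₀
  let y := Module.finBasis QB Y
  -- coordinates of an element of `W`
  have hmem : ∀ w ∈ W, w - (φ w : ℂ) ∈ K₀ := by
    intro w hw
    refine ⟨W.sub_mem hw ?_, ?_⟩
    · have := W.smul_mem (φ w) h1
      rwa [Algebra.smul_def, mul_one] at this
    · show w - (φ w : ℂ) ∈ LinearMap.ker φ
      rw [LinearMap.mem_ker, map_sub]
      have : φ ((φ w : QB) : ℂ) = φ w := by
        have h2 : ((φ w : QB) : ℂ) = (φ w) • (1 : ℂ) := by rw [Algebra.smul_def, mul_one]; rfl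
        rw [h2, map_smul, hφ, smul_eq_mul, mul_one]
      rw [this, sub_self]
  let co : ℂ → Fin (finrank QB K₀) → QB := fun w i =>
    if hw : w ∈ W then b.repr ⟨w - (φ w : ℂ), hmem w hw⟩ i else 0
  have hco : ∀ w ∈ W, w = (φ w : ℂ) + ∑ i, ((co w i : QB) : ℂ) * ((b i : K₀) : ℂ) := by
    intro w hw
    have h2 : ∀ i, co w i = b.repr ⟨w - (φ w : ℂ), hmem w hw⟩ i := fun i => dif_pos hw
    have h3 := b.sum_repr ⟨w - (φ w : ℂ), hmem w hw⟩
    have h4 := congrArg (fun z : K₀ => (z : ℂ)) h3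
    simp only [Submodule.coe_sum, Submodule.coe_smul] at h4
    simp_rw [h2]
    have h5 : ∀ (c : QB) (z : ℂ), c • z = (c : ℂ) * z := fun c z => by rw [Algebra.smul_def]; rfl
    simp_rw [h5] at h4
    rw [h4]; ring
  let x : Fin (finrank QB K₀ + 1) → ℂ := Fin.cons 1 (fun i => ((b i : K₀) : ℂ))
  have hx : LinearIndependent QB x := by
    rw [linearIndependent_finCons]
    refine ⟨b.linearIndependent.map' K₀.subtype K₀.ker_subtype, ?_⟩
    intro h
    have h2 : (1 : ℂ) ∈ K₀ := by
      refine Submodule.span_le.mpr ?_ h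
      rintro _ ⟨i, rfl⟩
      exact (b i).2
    have h3 : φ 1 = 0 := h2.2
    rw [hφ] at h3
    exact one_ne_zero h3
  let a : Fin (finrank QB K₀ + 1) → κ ⊕ Fin (finrank QB Y) → ℂ := fun i =>
    Sum.elim (fun k => (Fin.cons ((φ (P k) : ℂ) * (u k + γ k) + (φ (P k * ℓ) : ℂ) * β k -
        P k * (u k + β k * ℓ + γ k))
        (fun i => ((co (P k) i : QB) : ℂ) * (u k + γ k) + ((co (P k * ℓ) i : QB) : ℂ) * β k) :
          Fin (finrank QB K₀ + 1) → ℂ) i)
      (fun j => (Fin.cons (-((y j : Y) : ℂ)) (fun i => ((co ((y j : Y) : ℂ) i : QB) : ℂ)) :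
          Fin (finrank QB K₀ + 1) → ℂ) i)
  have hPW : ∀ k, P k ∈ W := fun k => hV (hPV k)
  have hPlW : ∀ k, P k * ℓ ∈ W := fun k => hℓ _ (hPV k)
  have algQB : ∀ c : QB, IsAlgebraic ℚ (c : ℂ) := fun c => mem_QB.mp c.2
  have huγ : ∀ k, u k + γ k ∈ Lt := fun k => Lt_add (Lt_log (hu k)) (Lt_alg (algQB _))
  have hmain := hyperplane' (finrank QB K₀ + 1) x a hx ?_ ?_ ?_
  · rw [Fintype.card_sum, Fintype.card_fin] at hmain
    rw [hdW, hdY]
    omega
  · -- membership
    intro i c
    rcases c with k | j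
    · refine Fin.cases ?_ (fun i => ?_) i
      · show (φ (P k) : ℂ) * (u k + γ k) + (φ (P k * ℓ) : ℂ) * β k -
          P k * (u k + β k * ℓ + γ k) ∈ Lt
        exact Lt.sub_mem (Lt_add (Lt_mul (algQB _) (huγ k))
          (Lt_mul (algQB _) (Lt_alg (algQB _)))) (hz k)
      · show ((co (P k) i : QB) : ℂ) * (u k + γ k) + ((co (P k * ℓ) i : QB) : ℂ) * β k ∈ Lt
        exact Lt_add (Lt_mul (algQB _) (huγ k)) (Lt_mul (algQB _) (Lt_alg (algQB _)))
    · refine Fin.cases ?_ (fun i => ?_) i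
      · show -((y j : Y) : ℂ) ∈ Lt
        exact Lt.neg_mem (y j).2.1.2
      · exact Lt_alg (algQB _)
  · -- relations
    intro c
    rw [Fin.sum_univ_succ]
    rcases c with k | j
    · show 1 * ((φ (P k) : ℂ) * (u k + γ k) + (φ (P k * ℓ) : ℂ) * β k -
          P k * (u k + β k * ℓ + γ k)) + ∑ i, ((b i : K₀) : ℂ) *
          (((co (P k) i : QB) : ℂ) * (u k + γ k) + ((co (P k * ℓ) i : QB) : ℂ) * β k) = 0
      have h2 := hco (P k) (hPW k)
      have h3 := hco (P k * ℓ) (hPlW k)
      have h4 : ∑ i, ((b i : K₀) : ℂ) *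
          (((co (P k) i : QB) : ℂ) * (u k + γ k) + ((co (P k * ℓ) i : QB) : ℂ) * β k) =
          (∑ i, ((co (P k) i : QB) : ℂ) * ((b i : K₀) : ℂ)) * (u k + γ k) +
          (∑ i, ((co (P k * ℓ) i : QB) : ℂ) * ((b i : K₀) : ℂ)) * β k := by
        rw [Finset.sum_mul, Finset.sum_mul, ← Finset.sum_add_distrib]
        exact Finset.sum_congr rfl fun i _ => by ring
      rw [h4]
      linear_combination (-(u k + γ k)) * h2 - (β k : ℂ) * h3
    · show 1 * -((y j : Y) : ℂ) + ∑ i, ((b i : K₀) : ℂ) * ((co ((y j : Y) : ℂ) i : QB) : ℂ) = 0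
      have h2 := hco ((y j : Y) : ℂ) (y j).2.1.1
      have h3 : φ ((y j : Y) : ℂ) = 0 := (y j).2.2
      rw [h3] at h2
      have h4 : ∑ i, ((b i : K₀) : ℂ) * ((co ((y j : Y) : ℂ) i : QB) : ℂ) =
          ∑ i, ((co ((y j : Y) : ℂ) i : QB) : ℂ) * ((b i : K₀) : ℂ) :=
        Finset.sum_congr rfl fun i _ => by ring
      rw [h4]
      have h5 : ((0 : QB) : ℂ) = 0 := rfl
      rw [h5] at h2
      linear_combination -h2
  · -- independence
    rw [Fintype.linearIndependent_iff]
    intro c hc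
    have smul_eq : ∀ (c : QB) (z : ℂ), c • z = (c : ℂ) * z := fun c z => by
      rw [Algebra.smul_def]; rfl
    have hrow : ∀ i : Fin (finrank QB K₀),
        ∑ k, (c (Sum.inl k) : ℂ) * (((co (P k) i : QB) : ℂ) * (u k + γ k) +
          ((co (P k * ℓ) i : QB) : ℂ) * β k) +
        ∑ j, (c (Sum.inr j) : ℂ) * ((co ((y j : Y) : ℂ) i : QB) : ℂ) = 0 := by
      intro i
      have h2 := congrFun hc i.succ
      rw [Finset.sum_apply, Fintype.sum_sum_type] at h2
      simp only [Pi.smul_apply, smul_eq, Pi.zero_apply] at h2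
      exact h2
    have hopt := opt_indep u hu hui
    rw [Fintype.linearIndependent_iff] at hopt
    have hck : ∀ k i, c (Sum.inl k) * co (P k) i = 0 := by
      intro k i
      have h2 := hopt (fun o => o.elim
        (∑ k, c (Sum.inl k) * (co (P k) i * γ k + co (P k * ℓ) i * β k) +
          ∑ j, c (Sum.inr j) * co ((y j : Y) : ℂ) i) (fun k => c (Sum.inl k) * co (P k) i)) ?_ (some k)
      · exact h2
      · rw [Fintype.sum_option]
        simp only [Option.elim_none, Option.elim_some, smul_eq]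
        rw [← hrow i]
        have e1 : ∑ k, (c (Sum.inl k) : ℂ) * (((co (P k) i : QB) : ℂ) * (u k + γ k) +
            ((co (P k * ℓ) i : QB) : ℂ) * β k) =
            ∑ k, (c (Sum.inl k) : ℂ) * (((co (P k) i : QB) : ℂ) * γ k +
              ((co (P k * ℓ) i : QB) : ℂ) * β k) +
            ∑ k, (c (Sum.inl k) : ℂ) * ((co (P k) i : QB) : ℂ) * u k := by
          rw [← Finset.sum_add_distrib]
          exact Finset.sum_congr rfl fun _ _ => by ring
        rw [e1]
        push_cast
        ring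
    have hc1 : ∀ k, c (Sum.inl k) = 0 := by
      intro k
      by_contra hne
      have h2 : ∀ i, co (P k) i = 0 := fun i => by
        rcases mul_eq_zero.mp (hck k i) with h | h
        · exact absurd h hne
        · exact h
      apply hPt k
      rw [hco (P k) (hPW k)]
      simp only [h2]
      have h5 : ((0 : QB) : ℂ) = 0 := rfl
      simp only [h5, zero_mul, Finset.sum_const_zero, add_zero]
      exact algQB _
    have hc2 : ∀ j, c (Sum.inr j) = 0 := by
      have h3 := y.linearIndependent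
      rw [Fintype.linearIndependent_iff] at h3
      apply h3
      apply Subtype.ext
      simp only [Submodule.coe_sum, Submodule.coe_smul, smul_eq, Submodule.coe_zero]
      have h4 : ∀ j, ((y j : Y) : ℂ) = ∑ i, ((co ((y j : Y) : ℂ) i : QB) : ℂ) * ((b i : K₀) : ℂ) := by
        intro j
        have h2 := hco ((y j : Y) : ℂ) (y j).2.1.1
        have h3 : φ ((y j : Y) : ℂ) = 0 := (y j).2.2
        rw [h3] at h2
        have h5 : ((0 : QB) : ℂ) = 0 := rfl
        rw [h5, zero_add] at h2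
        exact h2
      have h6 : ∀ j, (c (Sum.inr j) : ℂ) * ((y j : Y) : ℂ) =
          ∑ i, (c (Sum.inr j) : ℂ) * ((co ((y j : Y) : ℂ) i : QB) : ℂ) * ((b i : K₀) : ℂ) := by
        intro j
        conv_lhs => rw [h4 j]
        rw [Finset.mul_sum]
        exact Finset.sum_congr rfl fun i _ => by ring
      rw [Finset.sum_congr rfl fun j _ => h6 j, Finset.sum_comm]
      apply Finset.sum_eq_zero
      intro i _
      rw [← Finset.sum_mul]
      have h7 := hrow i
      simp only [hc1] at h7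
      have h5 : ((0 : QB) : ℂ) = 0 := rfl
      simp only [h5, zero_mul, Finset.sum_const_zero, zero_add] at h7
      rw [h7, zero_mul]
    intro o
    rcases o with k | j
    · exact hc1 k
    · exact hc2 j

end Pool.Agent.Q28.HP
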