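import Pool.Agent.W254.HP.Opt

/-!
# Counting integers in a set of bounded multiplicative rank
-/

set_option autoImplicit false

namespace Pool.Agent.Q28.HP

open Module Finset
open Pool.Agent.W254.HP (log_primes_indep)

/-- the vector of the exponents of the prime factorisation -/
noncomputable def vec (n : ℕ) : ℕ →₀ ℚ := n.factorization.mapRange (fun k : ℕ => (k : ℚ)) (by simp)

theorem vec_apply (n p : ℕ) : vec n p = (n.factorization p : ℚ) := by
  simp [vec]

theorem vec_inj {n n' : ℕ} (hn : 1 ≤ n) (hn' : 1 ≤ n') (h : vec n = vec n') : n = n' := by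
  apply Nat.eq_of_factorization_eq (by omega) (by omega)
  intro p
  have := DFunLike.congr_fun h p
  rw [vec_apply, vec_apply] at this
  exact_mod_cast this

noncomputable def Lg : (ℕ →₀ ℚ) →ₗ[ℚ] ℂ := Finsupp.linearCombination ℚ (fun p : ℕ => (Real.log p : ℂ))

theorem Lg_vec {n : ℕ} (hn : 1 ≤ n) : Lg (vec n) = (Real.log n : ℂ) := by
  unfold Lg vec
  rw [Finsupp.linearCombination_apply, Finsupp.sum_mapRange_index (by simp)]
  have h1 : (n : ℝ) = n.factorization.prod (fun p k => (p : ℝ) ^ k) := by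
    conv_lhs => rw [← Nat.prod_factorization_pow_eq_self (by omega : n ≠ 0)]
    rw [Finsupp.prod, Finsupp.prod]
    push_cast
    rfl
  rw [h1, Finsupp.prod, Real.log_prod (fun p hp => by
    have : 0 < p := Nat.pos_of_mem_primeFactors (by
      rwa [Nat.support_factorization] at hp)
    positivity)]
  rw [Finsupp.sum]
  push_cast
  apply Finset.sum_congr rfl
  intro p _
  rw [Real.log_pow]
  rw [Rat.smul_def]
  push_cast
  rfl

theorem Lg_inj {w : ℕ →₀ ℚ} (hw : w ∈ Finsupp.supported ℚ ℚ {p : ℕ | p.Prime}) (h : Lg w = 0) :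
    w = 0 := by
  have h1 : LinearIndepOn ℚ (fun p : ℕ => (Real.log p : ℂ)) {p : ℕ | p.Prime} := log_primes_indep
  rw [linearIndepOn_iff] at h1
  exact h1 w hw h

theorem vec_supported (n : ℕ) : vec n ∈ Finsupp.supported ℚ ℚ {p : ℕ | p.Prime} := by
  rw [Finsupp.mem_supported]
  intro p hp
  have h1 : vec n p ≠ 0 := by simpa using hp
  rw [vec_apply] at h1
  have h2 : n.factorization p ≠ 0 := by exact_mod_cast h1
  by_contra h3
  exact h2 (Nat.factorization_eq_zero_of_not_prime n h3)

theorem log_indep {κ : Type} (n : κ → ℕ) (hn : ∀ k, 1 ≤ n k)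
    (h : LinearIndependent ℚ (fun k => vec (n k))) :
    LinearIndependent ℚ (fun k => (Real.log (n k) : ℂ)) := by
  have h1 := h.map (f := Lg) (by
    rw [Submodule.disjoint_def]
    intro w hw hw2
    refine Lg_inj ?_ hw2
    refine Submodule.span_le.mpr ?_ hw
    rintro _ ⟨k, rfl⟩
    exact vec_supported _)
  have h2 : (fun k => (Real.log (n k) : ℂ)) = Lg ∘ fun k => vec (n k) :=
    funext fun k => (Lg_vec (hn k)).symm
  rw [h2]
  exact h1

theorem coords (r : ℕ) : ∀ (U : Submodule ℚ (ℕ →₀ ℚ)), FiniteDimensional ℚ U → finrank ℚ U ≤ r →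
    ∃ T : Finset ℕ, T.card ≤ r ∧ ∀ u ∈ U, (∀ i ∈ T, u i = 0) → u = 0 := by
  induction r with
  | zero =>
    intro U hU h
    refine ⟨∅, le_refl _, fun u hu _ => ?_⟩
    have h1 : U = ⊥ := Submodule.finrank_eq_zero.mp (Nat.le_zero.mp h)
    rw [h1] at hu
    exact hu
  | succ r ih =>
    intro U hU h
    by_cases hb : U = ⊥
    · refine ⟨∅, Nat.zero_le _, fun u hu _ => ?_⟩
      rw [hb] at hu
      exact hu
    · obtain ⟨u, hu, hu0⟩ := Submodule.exists_mem_ne_zero_of_ne_bot hb
      obtain ⟨i, hi⟩ : ∃ i, u i ≠ 0 := by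
        by_contra hcon
        push Not at hcon
        exact hu0 (Finsupp.ext hcon)
      let U' : Submodule ℚ (ℕ →₀ ℚ) := U ⊓ LinearMap.ker (Finsupp.lapply i)
      have hlt : U' < U := by
        refine lt_of_le_of_ne inf_le_left ?_
        intro h2
        have h3 : u ∈ U' := by rw [h2]; exact hu
        have h4 : (Finsupp.lapply (R := ℚ) i : (ℕ →₀ ℚ) →ₗ[ℚ] ℚ) u = 0 := h3.2
        exact hi h4
      have h3 : finrank ℚ U' < finrank ℚ U := Submodule.finrank_lt_finrank_of_lt hlt
      obtain ⟨T, hT, hT2⟩ := ih U' (Submodule.finiteDimensional_of_le inf_le_left) (by omega)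
      refine ⟨insert i T, (Finset.card_insert_le _ _).trans (by omega), fun w hw hw2 => ?_⟩
      apply hT2 w ⟨hw, hw2 i (Finset.mem_insert_self _ _)⟩
      intro j hj
      exact hw2 j (Finset.mem_insert_of_mem hj)

/-- A set of positive integers in which at most `R` elements are multiplicatively independent has
at most `(log₂ N + 1) ^ R` elements up to `N`. -/
theorem count_le (E : Set ℕ) (hE : ∀ n ∈ E, 1 ≤ n) (R : ℕ)
    (hR : ∀ (κ : Type) [Fintype κ] (n : κ → ℕ), (∀ k, n k ∈ E) →
      LinearIndependent ℚ (fun k => (Real.log (n k) : ℂ)) → Fintype.card κ ≤ R) (N : ℕ) :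
    {n ∈ E | n ≤ N}.ncard ≤ (Nat.log 2 N + 1) ^ R := by
  classical
  obtain ⟨b, hbE, hbs, hbi⟩ := exists_linearIndependent ℚ (vec '' E)
  -- finite subsets of `b`
  have hfin : ∀ t : Finset (ℕ →₀ ℚ), (t : Set (ℕ →₀ ℚ)) ⊆ b → t.card ≤ R := by
    intro t ht
    choose n hn1 hn2 using fun x : t => hbE (ht x.2)
    have h1 := hR t n hn1 (log_indep n (fun k => hE _ (hn1 k)) ?_)
    · simpa using h1
    · simp_rw [hn2]
      exact hbi.comp (fun x : t => (⟨(x : ℕ →₀ ℚ), ht x.2⟩ : b)) (fun x y hxy => Subtype.ext (by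
        simpa using hxy))
  have hbf : b.Finite := by
    by_contra hinf
    obtain ⟨t, ht, htc⟩ := Set.Infinite.exists_subset_card_eq hinf (R + 1)
    have := hfin t ht
    omega
  have hbR : b.ncard ≤ R := by
    rw [Set.ncard_eq_toFinset_card b hbf]
    exact hfin _ (by simp)
  let U : Submodule ℚ (ℕ →₀ ℚ) := Submodule.span ℚ b
  have hUf : FiniteDimensional ℚ U := FiniteDimensional.span_of_finite ℚ hbf
  have hUr : finrank ℚ U ≤ R := by
    refine le_trans ?_ hbR
    have := hbf.fintype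
    have := finrank_span_le_card (R := ℚ) b
    rwa [Set.ncard_eq_toFinset_card' b]
  obtain ⟨T, hT, hT2⟩ := coords R U hUf hUr
  have hvU : ∀ n ∈ E, vec n ∈ U := by
    intro n hn
    show vec n ∈ Submodule.span ℚ b
    rw [hbs]
    exact Submodule.subset_span ⟨n, hn, rfl⟩
  have hfinE : {n ∈ E | n ≤ N}.Finite := (Set.finite_Icc 0 N).subset (fun n hn => ⟨Nat.zero_le _, hn.2⟩)
  have hinj : Set.InjOn (fun (n : ℕ) (p : T) => (⟨min (n.factorization p) (Nat.log 2 N), by omega⟩ :
      Fin (Nat.log 2 N + 1))) {n ∈ E | n ≤ N} := by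
    intro n hn n' hn' h
    have hle : ∀ m ∈ {n ∈ E | n ≤ N}, ∀ p, m.factorization p ≤ Nat.log 2 N := by
      intro m hm p
      by_cases hp : p.Prime
      · have hm0 : m ≠ 0 := by have := hE m hm.1; omega
        apply Nat.le_log_of_pow_le (by norm_num)
        calc 2 ^ m.factorization p ≤ p ^ m.factorization p := Nat.pow_le_pow_left hp.two_le _
          _ ≤ m := Nat.ordProj_le p hm0
          _ ≤ N := hm.2
      · rw [Nat.factorization_eq_zero_of_not_prime m hp]; omega
    apply vec_inj (hE n hn.1) (hE n' hn'.1)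
    have h2 := hT2 (vec n - vec n') (U.sub_mem (hvU n hn.1) (hvU n' hn'.1)) (by
      intro i hi
      have h3 := congrFun h ⟨i, hi⟩
      have h4 := congrArg (fun x : Fin (Nat.log 2 N + 1) => (x : ℕ)) h3
      simp only at h4
      rw [min_eq_left (hle n hn i), min_eq_left (hle n' hn' i)] at h4
      rw [Finsupp.sub_apply, vec_apply, vec_apply, h4, sub_self])
    exact sub_eq_zero.mp h2
  calc {n ∈ E | n ≤ N}.ncard ≤ (Set.univ : Set (T → Fin (Nat.log 2 N + 1))).ncard :=
        Set.ncard_le_ncard_of_injOn _ (fun _ _ => Set.mem_univ _) hinj Set.finite_univ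
    _ = (Nat.log 2 N + 1) ^ T.card := by
        rw [Set.ncard_univ, Nat.card_eq_fintype_card, Fintype.card_fun, Fintype.card_fin,
          Fintype.card_coe]
    _ ≤ (Nat.log 2 N + 1) ^ R := Nat.pow_le_pow_right (by omega) hT

end Pool.Agent.Q28.HP
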