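import Pool.Agent.Q28.HP.Core
import Pool.Agent.Q28.HP.Count
import Pool.Agent.H335R2.MThm

/-!
# Counting integers `n` with `P (log n + β ℓ + γ)` a linear form in logarithms
-/

set_option autoImplicit false

namespace Pool.Agent.Q28.HP

open Module Finset
open Pool.Agent.H301R2.SSE (QB mem_QB Lt Lt_rep Lt_mul Lt_alg Lt_log)
open Pool.Agent.W254.HP (opt_indep)

/-- the exceptional integers -/
def Exc (V : Submodule QB ℂ) (ℓ : ℂ) : Set ℕ :=
  {n : ℕ | 1 ≤ n ∧ ∃ P ∈ V, ¬ IsAlgebraic ℚ P ∧ ∃ β γ : QB,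
    P * ((Real.log n : ℂ) + β * ℓ + γ) ∈ Lt}

theorem exc_count (W V : Submodule QB ℂ) [FiniteDimensional QB W]
    (h1 : (1 : ℂ) ∈ W) (hV : V ≤ W) (ℓ : ℂ) (hℓ : ∀ v ∈ V, v * ℓ ∈ W) (N : ℕ) :
    {n ∈ Exc V ℓ | n ≤ N}.ncard ≤ (Nat.log 2 N + 1) ^
      (finrank QB W * (finrank QB W - 1) + 1 - finrank QB (W ⊓ Lt : Submodule QB ℂ)) := by
  refine count_le (Exc V ℓ) (fun n hn => hn.1) _ ?_ N
  intro κ _ n hn hli
  choose P hPV hPt β γ hz using fun k => (hn k).2
  have h := core W V h1 hV ℓ hℓ (fun k => (Real.log (n k) : ℂ)) (fun k => ?_) hli β γ P hPV hPt hz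
  · omega
  · have h2 : Complex.exp (Real.log (n k) : ℂ) = ((n k : ℕ) : ℂ) := by
      rw [← Complex.ofReal_exp, Real.exp_log (by exact_mod_cast (hn k).1)]
      norm_cast
    rw [h2]
    exact isAlgebraic_algebraMap ((n k : ℕ) : ℚ)

/-- Gelfond-Schneider for integers -/
theorem gs {n : ℕ} (hn : 2 ≤ n) {P : ℂ} (hP : IsAlgebraic ℚ P) (hq : ∀ q : ℚ, P ≠ q) :
    ¬ IsAlgebraic ℚ (Complex.exp (P * Real.log n)) := by
  intro h
  have hlog : (Real.log n : ℂ) ≠ 0 := by
    have : Real.log n ≠ 0 := ne_of_gt (Real.log_pos (by exact_mod_cast hn))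
    exact_mod_cast this
  have hexp : IsAlgebraic ℚ (Complex.exp (Real.log n : ℂ)) := by
    rw [← Complex.ofReal_exp, Real.exp_log (by exact_mod_cast (by omega : 0 < n))]
    exact_mod_cast isAlgebraic_algebraMap ((n : ℕ) : ℚ)
  by_cases hli : LinearIndependent ℚ ![(Real.log n : ℂ), P * Real.log n]
  · have h1 := opt_indep ![(Real.log n : ℂ), P * Real.log n] (fun i => by
      fin_cases i
      · exact hexp
      · exact h) hli
    rw [Fintype.linearIndependent_iff] at h1
    have h2 := h1 (fun o => o.elim 0 ![⟨P, mem_QB.mpr hP⟩, -1]) (by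
      rw [Fintype.sum_option, Fin.sum_univ_two]
      simp only [Option.elim_none, Option.elim_some, Algebra.smul_def]
      show algebraMap QB ℂ 0 * 1 + (P * (Real.log n : ℂ) + algebraMap QB ℂ (-1) * (P * Real.log n)) = 0
      rw [map_zero, map_neg, map_one]
      ring) (some 1)
    have h3 : (-1 : QB) = 0 := h2
    exact (by norm_num : (-1 : QB) ≠ 0) h3
  · rw [LinearIndependent.pair_iff] at hli
    push Not at hli
    obtain ⟨s, t, hst, hne⟩ := hli
    have h3 : ((s : ℂ) + t * P) * Real.log n = 0 := by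
      have : s • (Real.log n : ℂ) + t • (P * Real.log n) = ((s : ℂ) + t * P) * Real.log n := by
        rw [Rat.smul_def, Rat.smul_def]; ring
      rw [← this]; exact hst
    have h4 : (s : ℂ) + t * P = 0 := by
      rcases mul_eq_zero.mp h3 with h | h
      · exact h
      · exact absurd h hlog
    by_cases ht : t = 0
    · subst ht
      have : s = 0 := by
        have h5 : (s : ℂ) = 0 := by simpa using h4
        exact_mod_cast h5
      exact hne this rfl
    · have htc : (t : ℂ) ≠ 0 := by exact_mod_cast ht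
      apply hq (-s / t)
      push_cast
      field_simp
      linear_combination h4

theorem pi_mem : (Real.pi : ℂ) ∈ Lt := Pool.Agent.H335R2.col4

theorem pi_transc : ¬ IsAlgebraic ℚ (Real.pi : ℂ) := Pool.Agent.H335R2.piC_transcendental

/-- a space containing `1` and `π` meets the linear forms in dimension at least two -/
theorem two_le (W : Submodule QB ℂ) [FiniteDimensional QB W] (h1 : (1 : ℂ) ∈ W)
    (hp : (Real.pi : ℂ) ∈ W) : 2 ≤ finrank QB (W ⊓ Lt : Submodule QB ℂ) := by
  have hfd : FiniteDimensional QB (W ⊓ Lt : Submodule QB ℂ) :=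
    Submodule.finiteDimensional_of_le (inf_le_left : W ⊓ Lt ≤ W)
  let v : Fin 2 → (W ⊓ Lt : Submodule QB ℂ) := ![⟨1, h1, Lt_alg isAlgebraic_one⟩, ⟨Real.pi, hp, pi_mem⟩]
  have hv : LinearIndependent QB v := by
    rw [LinearIndependent.pair_iff]
    intro s t hst
    have h2 := congrArg (fun z : (W ⊓ Lt : Submodule QB ℂ) => (z : ℂ)) hst
    simp only [Submodule.coe_add, Submodule.coe_smul, Submodule.coe_zero, Algebra.smul_def] at h2
    have h3 : (s : ℂ) + (t : ℂ) * Real.pi = 0 := by
      have h4 : (algebraMap QB ℂ s) * 1 + (algebraMap QB ℂ t) * (Real.pi : ℂ) = 0 := h2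
      rw [mul_one] at h4
      exact h4
    by_cases ht : t = 0
    · subst ht
      refine ⟨?_, rfl⟩
      have h5 : (s : ℂ) = 0 := by simpa using h3
      exact_mod_cast h5
    · exfalso
      have htc : (t : ℂ) ≠ 0 := by exact_mod_cast ht
      apply pi_transc
      have h5 : (Real.pi : ℂ) = ((-s / t : QB) : ℂ) := by
        push_cast
        field_simp
        linear_combination h3
      rw [h5]
      exact mem_QB.mp (-s / t : QB).2
  have h := hv.fintype_card_le_finrank
  simpa using h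

end Pool.Agent.Q28.HP
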